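import Pool.Agent.W599.DSN.Stm

set_option autoImplicit false

namespace Pool.Agent.W131.DSN
open Pool.Agent.W599.DSN

theorem first_card {m n : ℕ} (w : Fin m → Fin n) (S : Finset (Fin m))
    (h : ∀ p ∈ S, ¬ ∃ i, i < p ∧ w i = w p) : S.card ≤ n := by
  have h1 : S.card ≤ (Finset.univ : Finset (Fin n)).card := by
    apply Finset.card_le_card_of_injOn w (fun _ _ => Finset.mem_coe.2 (Finset.mem_univ _))
    intro a ha b hb hab
    rcases lt_trichotomy a b with h2 | h2 | h2
    · exact absurd ⟨a, h2, hab⟩ (h b (Finset.mem_coe.1 hb))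
    · exact h2
    · exact absurd ⟨b, h2, hab.symm⟩ (h a (Finset.mem_coe.1 ha))
  rw [Finset.card_univ, Fintype.card_fin] at h1
  exact h1

theorem last_card {m n : ℕ} (w : Fin m → Fin n) (S : Finset (Fin m))
    (h : ∀ p ∈ S, ¬ ∃ i, p < i ∧ w i = w p) : S.card ≤ n := by
  have h1 : S.card ≤ (Finset.univ : Finset (Fin n)).card := by
    apply Finset.card_le_card_of_injOn w (fun _ _ => Finset.mem_coe.2 (Finset.mem_univ _))
    intro a ha b hb hab
    rcases lt_trichotomy a b with h2 | h2 | h2
    · exact absurd ⟨b, h2, hab.symm⟩ (h a (Finset.mem_coe.1 ha))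
    · exact h2
    · exact absurd ⟨a, h2, hab⟩ (h b (Finset.mem_coe.1 hb))
  rw [Finset.card_univ, Fintype.card_fin] at h1
  exact h1

open scoped Classical in
/-- positions that are not middle occurrences -/
noncomputable def NN {m n : ℕ} (w : Fin m → Fin n) : Finset (Fin m) :=
  Finset.univ.filter (fun p => ¬ Mid w p)

theorem mem_NN {m n : ℕ} (w : Fin m → Fin n) (p : Fin m) : p ∈ NN w ↔ ¬ Mid w p := by
  classical
  unfold NN
  rw [Finset.mem_filter]
  exact ⟨fun h => h.2, fun h => ⟨Finset.mem_univ _, h⟩⟩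

theorem NN_card {m n : ℕ} (w : Fin m → Fin n) : (NN w).card ≤ 2 * n := by
  classical
  have h0 : NN w ⊆ (Finset.univ.filter (fun p : Fin m => ¬ ∃ i, i < p ∧ w i = w p)) ∪
      (Finset.univ.filter (fun p : Fin m => ¬ ∃ i, p < i ∧ w i = w p)) := by
    intro p hp
    rw [mem_NN] at hp
    rw [Finset.mem_union, Finset.mem_filter, Finset.mem_filter]
    by_cases h1 : ∃ i, i < p ∧ w i = w p
    · right
      refine ⟨Finset.mem_univ _, fun h2 => hp ⟨h1, h2⟩⟩
    · left
      exact ⟨Finset.mem_univ _, h1⟩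
  have h1 := Finset.card_le_card h0
  have h2 := Finset.card_union_le
    (Finset.univ.filter (fun p : Fin m => ¬ ∃ i, i < p ∧ w i = w p))
    (Finset.univ.filter (fun p : Fin m => ¬ ∃ i, p < i ∧ w i = w p))
  have h3 := first_card w (Finset.univ.filter (fun p : Fin m => ¬ ∃ i, i < p ∧ w i = w p))
    (fun p hp => (Finset.mem_filter.1 hp).2)
  have h4 := last_card w (Finset.univ.filter (fun p : Fin m => ¬ ∃ i, p < i ∧ w i = w p))
    (fun p hp => (Finset.mem_filter.1 hp).2)
  omega

/-- values -/
noncomputable def NV {m n : ℕ} (w : Fin m → Fin n) : Finset ℕ := (NN w).image Fin.val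

/-- positions close to a non middle one -/
noncomputable def BV {m n : ℕ} (w : Fin m → Fin n) : Finset ℕ :=
  NV w ∪ ((NV w).image (fun v => v + 1) ∪ (NV w).image (fun v => v - 1))

theorem NV_card {m n : ℕ} (w : Fin m → Fin n) : (NV w).card ≤ 2 * n :=
  Finset.card_image_le.trans (NN_card w)

theorem BV_card {m n : ℕ} (w : Fin m → Fin n) : (BV w).card ≤ 6 * n := by
  have h1 := Finset.card_union_le (NV w)
    ((NV w).image (fun v => v + 1) ∪ (NV w).image (fun v => v - 1))
  have h2 := Finset.card_union_le ((NV w).image (fun v => v + 1)) ((NV w).image (fun v => v - 1))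
  have h3 : ((NV w).image (fun v => v + 1)).card ≤ (NV w).card := Finset.card_image_le
  have h4 : ((NV w).image (fun v => v - 1)).card ≤ (NV w).card := Finset.card_image_le
  have h5 := NV_card w
  unfold BV
  omega

theorem mid_of {m n : ℕ} (w : Fin m → Fin n) (p : Fin m) (h : p.val ∉ NV w) : Mid w p := by
  by_contra h1
  exact h (Finset.mem_image_of_mem _ ((mem_NN w p).2 h1))

theorem good_of {m n : ℕ} (w : Fin m → Fin n) (e : Fin m) (h : e.val ∉ BV w) :
    ∃ p q, Good w p e q := by
  unfold BV at h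
  rw [Finset.mem_union, Finset.mem_union, not_or, not_or] at h
  obtain ⟨h1, h2, h3⟩ := h
  have he := mid_of w e h1
  obtain ⟨i, hi, _⟩ := he.1
  obtain ⟨j, hj, _⟩ := he.2
  have hi' : i.val < e.val := hi
  have hj' : e.val < j.val := hj
  have hj2 : j.val < m := j.2
  have hp : e.val - 1 < m := by omega
  have hq : e.val + 1 < m := by omega
  refine ⟨⟨e.val - 1, hp⟩, ⟨e.val + 1, hq⟩, ?_, rfl, ?_, he, ?_⟩
  · show e.val - 1 + 1 = e.val
    omega
  · apply mid_of
    intro h4
    apply h2
    have h5 := Finset.mem_image_of_mem (fun v => v + 1) h4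
    have h6 : e.val - 1 + 1 = e.val := by omega
    have h7 : (⟨e.val - 1, hp⟩ : Fin m).val + 1 = e.val := h6
    have h8 : (⟨e.val - 1, hp⟩ : Fin m).val + 1 ∈ (NV w).image (fun v => v + 1) := h5
    rw [h7] at h8
    exact h8
  · apply mid_of
    intro h4
    apply h3
    have h5 := Finset.mem_image_of_mem (fun v => v - 1) h4
    have h6 : e.val + 1 - 1 = e.val := by omega
    have h7 : (⟨e.val + 1, hq⟩ : Fin m).val - 1 = e.val := h6
    have h8 : (⟨e.val + 1, hq⟩ : Fin m).val - 1 ∈ (NV w).image (fun v => v - 1) := h5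
    rw [h7] at h8
    exact h8

theorem sel_aux {m n : ℕ} (w : Fin m → Fin n) (r : ℕ)
    (h : 16 * n ≤ ((Finset.range m \ BV w).filter (fun v => v % 2 = r)).card) :
    ∃ E : Finset (Fin m), 16 * n ≤ E.card ∧ (∀ e ∈ E, ∃ p q, Good w p e q) ∧
    (∀ e ∈ E, ∀ e' ∈ E, e.val + 1 ≠ e'.val) := by
  have hlt : ∀ v ∈ (Finset.range m \ BV w).filter (fun v => v % 2 = r), v < m := by
    intro v hv
    exact Finset.mem_range.1 (Finset.mem_sdiff.1 (Finset.mem_filter.1 hv).1).1
  refine ⟨Finset.attachFin _ hlt, ?_, ?_, ?_⟩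
  · rw [Finset.card_attachFin]
    exact h
  · intro e he
    rw [Finset.mem_attachFin] at he
    exact good_of w e (Finset.mem_sdiff.1 (Finset.mem_filter.1 he).1).2
  · intro e he e' he' hee
    rw [Finset.mem_attachFin] at he he'
    have h1 := (Finset.mem_filter.1 he).2
    have h2 := (Finset.mem_filter.1 he').2
    omega

theorem sel : SEL := by
  intro m n w hm
  have h1 : m - 6 * n ≤ (Finset.range m \ BV w).card := by
    have h2 := Finset.le_card_sdiff (BV w) (Finset.range m)
    rw [Finset.card_range] at h2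
    have h3 := BV_card w
    omega
  have h4 : ((Finset.range m \ BV w).filter (fun v => v % 2 = 0)).card +
      ((Finset.range m \ BV w).filter (fun v => v % 2 = 1)).card =
      (Finset.range m \ BV w).card := by
    have h5 := Finset.card_filter_add_card_filter_not (s := Finset.range m \ BV w)
      (fun v => v % 2 = 0)
    have h6 : (Finset.range m \ BV w).filter (fun v => ¬ v % 2 = 0) =
        (Finset.range m \ BV w).filter (fun v => v % 2 = 1) := by
      apply Finset.filter_congr
      intro v _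
      omega
    rw [h6] at h5
    exact h5
  by_cases h7 : 16 * n ≤ ((Finset.range m \ BV w).filter (fun v => v % 2 = 0)).card
  · exact sel_aux w 0 h7
  · apply sel_aux w 1
    omega

end Pool.Agent.W131.DSN
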